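import Pool.Agent.Helper72.LS.L1

/-!
LS-5: the identity `(K)`.
-/

namespace Pool.Agent.Helper88.LS

open Finset
open scoped Classical
open Pool.Agent.Helper72.LS

noncomputable section

variable {V : Type} [Fintype V] (G : SimpleGraph V)

/-- the edge form -/
def om (f g : V → ℤ) : ℤ := ∑ x, ∑ y, f x * g y * ad G x y

/-- the triangle form -/
def tau (f g h : V → ℤ) : ℤ :=
  ∑ x, ∑ y, ∑ z, f x * g y * h z * (ad G x y * ad G y z * ad G x z)

/-- the path form, with middle vertex of weight `f` -/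
def pth (f g h : V → ℤ) : ℤ :=
  ∑ x, ∑ y, ∑ z, f x * g y * h z * (ad G x y * ad G x z)

omit [Fintype V] in
theorem ad_comm (x y : V) : ad G x y = ad G y x := by
  unfold ad
  simp only [G.adj_comm]

theorem om_symm (f g : V → ℤ) : om G f g = om G g f := by
  unfold om
  rw [Finset.sum_comm]
  refine Finset.sum_congr rfl fun x _ => Finset.sum_congr rfl fun y _ => ?_
  rw [ad_comm G y x]
  ring

theorem om_add (f g g' : V → ℤ) : om G f (fun x => g x + g' x) = om G f g + om G f g' := by
  unfold om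
  simp only [← Finset.sum_add_distrib]
  refine Finset.sum_congr rfl fun x _ => Finset.sum_congr rfl fun y _ => ?_
  ring

theorem tau_add (f g h h' : V → ℤ) :
    tau G f g (fun x => h x + h' x) = tau G f g h + tau G f g h' := by
  unfold tau
  simp only [← Finset.sum_add_distrib]
  refine Finset.sum_congr rfl fun x _ => Finset.sum_congr rfl fun y _ =>
    Finset.sum_congr rfl fun z _ => ?_
  ring

theorem tau_swap (f g h : V → ℤ) : tau G f g h = tau G f h g := by
  unfold tau
  refine Finset.sum_congr rfl fun x _ => ?_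
  rw [Finset.sum_comm]
  refine Finset.sum_congr rfl fun y _ => Finset.sum_congr rfl fun z _ => ?_
  rw [ad_comm G z y]
  ring

theorem tau_swap' (f g h : V → ℤ) : tau G f g h = tau G g f h := by
  unfold tau
  rw [Finset.sum_comm]
  refine Finset.sum_congr rfl fun x _ => Finset.sum_congr rfl fun y _ =>
    Finset.sum_congr rfl fun z _ => ?_
  rw [ad_comm G y x]
  ring

theorem sum_Qs (v y : V) (f : V → ℤ) :
    ∑ x ∈ Qs G v y, f x = ∑ x, ad G v x * (1 - ad G y x) * f x := by
  unfold Qs ad
  rw [Finset.sum_filter]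
  refine Finset.sum_congr rfl fun x _ => ?_
  by_cases h1 : G.Adj v x <;> by_cases h2 : G.Adj y x <;> simp [h1, h2]

theorem sum_q (v : V) : ∑ x, ad G v x = dg G v := rfl

theorem sum_p (v : V) : ∑ x, (1 - ad G v x) = Fintype.card V - dg G v := by
  rw [Finset.sum_sub_distrib, sum_q]
  simp

theorem cent_eq (k δ : ℤ) (v : V) :
    Cent2 G k δ v = (Fintype.card V - k - δ - 1) *
      om G (fun x => 1 - ad G v x) (fun x => 1 - ad G v x) -
      tau G (fun x => 1 - ad G v x) (fun x => 1 - ad G v x) (fun _ => 1) := by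
  unfold Cent2 cc co om tau
  rw [sum_PH]
  simp only [sum_PH, Finset.mul_sum, ← Finset.sum_sub_distrib]
  refine Finset.sum_congr rfl fun y _ => Finset.sum_congr rfl fun z _ => ?_
  rw [mul_sub, mul_sub, mul_sub, Finset.mul_sum, Finset.mul_sum, Finset.mul_sum]
  congr 1
  · ring
  · refine Finset.sum_congr rfl fun x _ => ?_
    ring

theorem om_eq (f g : V → ℤ) : om G f g = ∑ x, f x * ∑ y, g y * ad G x y := by
  unfold om
  refine Finset.sum_congr rfl fun x _ => ?_
  rw [Finset.mul_sum]
  exact Finset.sum_congr rfl fun y _ => by ring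

theorem pth_eq (f g h : V → ℤ) :
    pth G f g h = ∑ x, f x * ((∑ y, g y * ad G x y) * (∑ z, h z * ad G x z)) := by
  unfold pth
  refine Finset.sum_congr rfl fun x _ => ?_
  rw [Finset.sum_mul_sum, Finset.mul_sum]
  refine Finset.sum_congr rfl fun y _ => ?_
  rw [Finset.mul_sum]
  exact Finset.sum_congr rfl fun z _ => by ring

theorem nx_eq (k δ : ℤ) (v : V) :
    ∑ x ∈ NG G v, Nx G v x * cc G k δ v x =
      (Fintype.card V - k - δ - 1) * (dg G v * (Fintype.card V - dg G v) -
        om G (ad G v) (fun x => 1 - ad G v x)) -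
      ((Fintype.card V - dg G v) * om G (ad G v) (ad G v) -
        pth G (ad G v) (fun x => 1 - ad G v x) (ad G v)) := by
  have h1 : ∀ x, Nx G v x = (Fintype.card V - dg G v) - ∑ y, (1 - ad G v y) * ad G x y := by
    intro x
    unfold Nx
    rw [sum_PH, ← sum_p, ← Finset.sum_sub_distrib]
    exact Finset.sum_congr rfl fun y _ => by ring
  have h2 : ∀ x, cc G k δ v x = (Fintype.card V - k - δ - 1) - ∑ z, ad G v z * ad G x z := by
    intro x
    rfl
  rw [sum_NG, om_eq, om_eq, pth_eq]
  simp only [h1, h2]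
  generalize (Fintype.card V : ℤ) - k - δ - 1 = β
  generalize (Fintype.card V : ℤ) - dg G v = c
  generalize hP : (fun x => ∑ y, (1 - ad G v y) * ad G x y) = P
  generalize hR : (fun x => ∑ z, ad G v z * ad G x z) = R
  have hP' : ∀ x, ∑ y, (1 - ad G v y) * ad G x y = P x := fun x => congrFun hP x
  have hR' : ∀ x, ∑ y, ad G v y * ad G x y = R x := fun x => congrFun hR x
  simp only [hP', hR']
  rw [← sum_q]
  have h3 : ∀ x, ad G v x * ((c - P x) * (β - R x)) = β * c * ad G v x - β * (ad G v x * P x) -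
      c * (ad G v x * R x) + ad G v x * (P x * R x) := fun x => by ring
  simp only [h3]
  rw [Finset.sum_add_distrib, Finset.sum_sub_distrib, Finset.sum_sub_distrib, ← Finset.mul_sum,
    ← Finset.mul_sum, ← Finset.mul_sum]
  ring

theorem qs_eq (v : V) :
    2 * ∑ y ∈ PH G v, eI G (Qs G v y) =
      (Fintype.card V - dg G v) * om G (ad G v) (ad G v) -
        2 * pth G (ad G v) (fun x => 1 - ad G v x) (ad G v) +
        tau G (fun x => 1 - ad G v x) (ad G v) (ad G v) := by
  have h1 : ∀ y, 2 * eI G (Qs G v y) = ∑ x, ∑ z, ad G v x * ad G v z * ad G x z -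
      ∑ x, ∑ z, ad G v x * ad G v z * ad G x z * ad G y x -
      ∑ x, ∑ z, ad G v x * ad G v z * ad G x z * ad G y z +
      ∑ x, ∑ z, ad G v x * ad G v z * (ad G y x * ad G x z * ad G y z) := by
    intro y
    rw [two_eI, sum_Qs]
    simp only [sum_Qs, ← Finset.sum_sub_distrib, ← Finset.sum_add_distrib]
    refine Finset.sum_congr rfl fun x _ => ?_
    rw [Finset.mul_sum]
    exact Finset.sum_congr rfl fun z _ => by ring
  rw [sum_PH, Finset.mul_sum]
  have h2 : ∀ y, 2 * ((1 - ad G v y) * eI G (Qs G v y)) = (1 - ad G v y) * om G (ad G v) (ad G v) -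
      ∑ x, ∑ z, ad G v x * (1 - ad G v y) * ad G v z * (ad G x y * ad G x z) -
      ∑ x, ∑ z, ad G v x * ad G v z * (1 - ad G v y) * (ad G x z * ad G z y) +
      ∑ x, ∑ z, (1 - ad G v y) * ad G v x * ad G v z * (ad G y x * ad G x z * ad G y z) := by
    intro y
    rw [show 2 * ((1 - ad G v y) * eI G (Qs G v y)) = (1 - ad G v y) * (2 * eI G (Qs G v y)) by
      ring, h1]
    unfold om
    simp only [← Finset.sum_sub_distrib, ← Finset.sum_add_distrib, Finset.mul_sum]
    refine Finset.sum_congr rfl fun x _ => Finset.sum_congr rfl fun z _ => ?_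
    rw [ad_comm G y x, ad_comm G y z]
    ring
  simp only [h2]
  rw [Finset.sum_add_distrib, Finset.sum_sub_distrib, Finset.sum_sub_distrib, ← Finset.sum_mul,
    sum_p]
  have h3 : ∑ y, ∑ x, ∑ z, ad G v x * (1 - ad G v y) * ad G v z * (ad G x y * ad G x z) =
      pth G (ad G v) (fun x => 1 - ad G v x) (ad G v) := by
    unfold pth
    rw [Finset.sum_comm]
  have h4 : ∑ y, ∑ x, ∑ z, ad G v x * ad G v z * (1 - ad G v y) * (ad G x z * ad G z y) =
      pth G (ad G v) (fun x => 1 - ad G v x) (ad G v) := by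
    rw [← h3]
    refine Finset.sum_congr rfl fun y _ => ?_
    rw [Finset.sum_comm]
    refine Finset.sum_congr rfl fun x _ => Finset.sum_congr rfl fun z _ => ?_
    rw [ad_comm G z x]
    ring
  rw [h3, h4]
  unfold tau
  ring

theorem id_K {V : Type} [Fintype V] (G : SimpleGraph V) (k δ h : ℤ) (v : V) :
    2 * kv G k δ h v = 2 * (Xv G k v * Yv G k δ h v) - 2 * phG G k δ h + Cent2 G k δ v
      + 4 * tI G (PH G v) - 2 * (∑ x ∈ NG G v, Nx G v x * cc G k δ v x)
      - 2 * (∑ y ∈ PH G v, eI G (Qs G v y)) := by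
  have e1 : om G (fun _ => 1) (fun _ => 1) = om G (fun x => 1 - ad G v x) (fun x => 1 - ad G v x) +
      2 * om G (ad G v) (fun x => 1 - ad G v x) + om G (ad G v) (ad G v) := by
    have h0 : (fun _ : V => (1 : ℤ)) = fun x => (1 - ad G v x) + ad G v x := by
      funext x
      ring
    rw [h0, om_add, om_symm G _ (fun x => 1 - ad G v x), om_add,
      om_symm G (fun x => (1 - ad G v x) + ad G v x) (ad G v), om_add,
      om_symm G (fun x => 1 - ad G v x) (ad G v)]
    ring
  have h0 : (fun _ : V => (1 : ℤ)) = fun x => (1 - ad G v x) + ad G v x := by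
    funext x
    ring
  have t1 : ∀ f g : V → ℤ, tau G f g (fun _ => 1) =
      tau G f g (fun x => 1 - ad G v x) + tau G f g (ad G v) := by
    intro f g
    rw [h0, tau_add]
  have t2 : ∀ f h : V → ℤ, tau G f (fun _ => 1) h =
      tau G f (fun x => 1 - ad G v x) h + tau G f (ad G v) h := by
    intro f h
    rw [tau_swap, t1, tau_swap G f h, tau_swap G f h]
  have t3 : ∀ g h : V → ℤ, tau G (fun _ => 1) g h =
      tau G (fun x => 1 - ad G v x) g h + tau G (ad G v) g h := by
    intro g h
    rw [tau_swap', t2, tau_swap' G g, tau_swap' G g]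
  have m2 : 2 * em G = om G (fun _ => 1) (fun _ => 1) := by
    rw [two_em]
    unfold om
    simp
  have m6 : 6 * tm G = tau G (fun _ => 1) (fun _ => 1) (fun _ => 1) := by
    rw [six_tm]
    unfold tau
    simp
  have n2 : 2 * eI G (NG G v) = om G (ad G v) (ad G v) := by
    rw [two_eI_NG]
    rfl
  have n6 : 6 * tI G (NG G v) = tau G (ad G v) (ad G v) (ad G v) := by
    rw [six_tI_NG]
    rfl
  have p6 : 6 * tI G (PH G v) = tau G (fun x => 1 - ad G v x) (fun x => 1 - ad G v x)
      (fun x => 1 - ad G v x) := by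
    rw [six_tI_PH]
    rfl
  have a1 := al_nbr k δ h (Fintype.card V) (dg G v)
  have x1 := tau_swap G (fun x => 1 - ad G v x) (ad G v) (fun x => 1 - ad G v x)
  have x2 := tau_swap' G (ad G v) (fun x => 1 - ad G v x) (fun x => 1 - ad G v x)
  have x3 := tau_swap' G (ad G v) (fun x => 1 - ad G v x) (ad G v)
  have x4 := tau_swap G (ad G v) (ad G v) (fun x => 1 - ad G v x)
  have key : 3 * (2 * kv G k δ h v) = 3 * (2 * (Xv G k v * Yv G k δ h v) - 2 * phG G k δ h +
      Cent2 G k δ v + 4 * tI G (PH G v) - 2 * (∑ x ∈ NG G v, Nx G v x * cc G k δ v x)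
      - 2 * (∑ y ∈ PH G v, eI G (Qs G v y))) := by
    rw [qs_eq, nx_eq, cent_eq]
    unfold kv phG Yv Xv phi
    rw [a1]
    simp only [t1, t2, t3] at m6 ⊢
    rw [e1] at m2
    linear_combination 3 * ((Fintype.card V - dg G v) - (Fintype.card V - k - δ - 1)) * n2 +
      3 * (Fintype.card V - k - δ - 1) * m2 + n6 - m6 - 2 * p6 - (2 * x1 + x2 + 2 * x3 + x4)
  linarith

end

end Pool.Agent.Helper88.LS
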